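import Pool.Agent.H432Z.Code

set_option autoImplicit false

/-- No algorithm decides contractibility of finite simplicial complexes of dimension at most
three: there is no partial recursive function that halts on every finite simplicial complex whose
simplices have at most four vertices and answers `true` exactly when the geometric realization is
contractible. -/
theorem Pool.Agent.Results.MP_4c90a8_lc.AUndecidable.result :
    ¬ ∃ f : List (List ℕ) →. Bool, Partrec f ∧
      ∀ K : List (List ℕ), H432Z.IsComplex K → (∀ s ∈ K, s.length ≤ 4) →
        ∃ b ∈ f K, (b = true ↔ ContractibleSpace (H432Z.realization K)) :=
  H432Z.undecidable
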